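import Pool.Agent.Helper56.RZ.GoalsB

/-!
# Packet RZ-K1 (project RZ, MP_f32c9c_an): the splitting in a chart
-/

set_option autoImplicit false

open Set Filter Topology MeasureTheory

open scoped ContDiff

namespace Pool.Agent.Helper95.RZ

open Pool.Agent.Helper56.RZ

/-- the algebra at one point -/
lemma k1_alg {N K : ℕ} (u : E N →L[ℝ] E K) (v : E K →L[ℝ] E N) (T : End K) (P : Fin 3 → End K)
    (h1 : v ∘L u = 1) (h2 : T ∘L u = u) (h3 : u ∘L v ∘L T = T)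
    (hP : ∀ i j, P i * P j = if i = j then P i else 0) (hs : P 0 + P 1 + P 2 = T) :
    Proj3 (fun i => v ∘L P i ∘L u) ∧ ∀ i, P i ≠ 0 → v ∘L P i ∘L u ≠ 0 := by
  have hTP : ∀ i, T * P i = P i := by
    intro i
    rw [← hs, add_mul, add_mul, hP, hP, hP]
    fin_cases i <;> simp
  have hPT : ∀ i, P i * T = P i := by
    intro i
    rw [← hs, mul_add, mul_add, hP, hP, hP]
    fin_cases i <;> simp
  have e1 : ∀ x, v (u x) = x := fun x => by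
    have := congrArg (fun f : E N →L[ℝ] E N => f x) h1
    simpa using this
  have e2 : ∀ x, T (u x) = u x := fun x => by
    have := congrArg (fun f : E N →L[ℝ] E K => f x) h2
    simpa using this
  have e3 : ∀ x, u (v (T x)) = T x := fun x => by
    have := congrArg (fun f : E K →L[ℝ] E K => f x) h3
    simpa using this
  have e4 : ∀ i x, T (P i x) = P i x := fun i x => by
    have := congrArg (fun f : End K => f x) (hTP i)
    simpa using this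
  have e5 : ∀ i x, P i (T x) = P i x := fun i x => by
    have := congrArg (fun f : End K => f x) (hPT i)
    simpa using this
  have e6 : ∀ i x, u (v (P i x)) = P i x := fun i x => by
    have := e3 (P i x)
    rwa [e4] at this
  refine ⟨⟨?_, ?_⟩, ?_⟩
  · intro i j
    refine ContinuousLinearMap.ext fun x => ?_
    change v (P i (u (v (P j (u x))))) = _
    rw [e6]
    have := congrArg (fun f : End K => f (u x)) (hP i j)
    have h4 : P i (P j (u x)) = (if i = j then P i else 0 : End K) (u x) := this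
    rw [h4]
    split_ifs
    · rfl
    · simp
  · refine ContinuousLinearMap.ext fun x => ?_
    change v (P 0 (u x)) + v (P 1 (u x)) + v (P 2 (u x)) = x
    have : P 0 (u x) + P 1 (u x) + P 2 (u x) = T (u x) := by rw [← hs]; rfl
    rw [← map_add, ← map_add, this, e2, e1]
  · intro i hi h0
    refine hi ?_
    refine ContinuousLinearMap.ext fun x => ?_
    have h5 : v (P i (u (v (T x)))) = 0 := by
      have := congrArg (fun f : E N →L[ℝ] E N => f (v (T x))) h0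
      simpa using this
    rw [e3, e5] at h5
    have h6 := e6 i x
    rw [h5, map_zero] at h6
    simpa using h6.symm

lemma k1_norm {N K : ℕ} (u u' : E N →L[ℝ] E K) (v v' : E K →L[ℝ] E N) (A A' : End K)
    {b B s t w : ℝ} (hb : 0 ≤ b) (hB : 0 ≤ B) (hu : ‖u‖ ≤ b) (hv' : ‖v'‖ ≤ b)
    (hA : ‖A‖ ≤ B) (hA' : ‖A'‖ ≤ B) (h1 : ‖v - v'‖ ≤ s) (h2 : ‖A - A'‖ ≤ t)
    (h3 : ‖u - u'‖ ≤ w) (hs : 0 ≤ s) (ht : 0 ≤ t) :
    ‖v ∘L A ∘L u - v' ∘L A' ∘L u'‖ ≤ s * (B * b) + b * (t * b) + b * (B * w) := by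
  have e : v ∘L A ∘L u - v' ∘L A' ∘L u' =
      (v - v') ∘L A ∘L u + v' ∘L (A - A') ∘L u + v' ∘L A' ∘L (u - u') := by
    refine ContinuousLinearMap.ext fun x => ?_
    change v (A (u x)) - v' (A' (u' x)) = (v (A (u x)) - v' (A (u x))) +
      v' (A (u x) - A' (u x)) + v' (A' (u x - u' x))
    simp only [map_sub]
    abel
  rw [e]
  have n3 : ∀ (X : E K →L[ℝ] E N) (Y : End K) (Z : E N →L[ℝ] E K) {x y z : ℝ},
      ‖X‖ ≤ x → ‖Y‖ ≤ y → ‖Z‖ ≤ z → 0 ≤ x → 0 ≤ y → ‖X ∘L Y ∘L Z‖ ≤ x * (y * z) := by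
    intro X Y Z x y z hX hY hZ hx hy
    refine (X.opNorm_comp_le _).trans ?_
    refine mul_le_mul hX ((Y.opNorm_comp_le _).trans ?_) (norm_nonneg _) hx
    exact mul_le_mul hY hZ (norm_nonneg _) hy
  refine (norm_add_le _ _).trans (add_le_add ((norm_add_le _ _).trans (add_le_add ?_ ?_)) ?_)
  · exact n3 _ _ _ h1 hA hu hs hB
  · exact n3 _ _ _ hv' h2 hu hb ht
  · exact n3 _ _ _ hv' hA' h3 hb hB

theorem k1 (hT1 : StmtT1) : StmtK1 := by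
  intro N K M c P z0 α C U hz0 hU hzU α0 α1 hP hs hH
  have hmem : ∀ z ∈ c.V, c.ψ z ∈ M := fun z hz => (c.mapsψ z hz).1
  have halg : ∀ z ∈ c.V, Proj3 (fun i => phat c P i z) ∧
      ∀ i, P i (c.ψ z) ≠ 0 → phat c P i z ≠ 0 := by
    intro z hz
    obtain ⟨h1, h2, h3⟩ := hT1 N K M c z hz
    exact k1_alg _ _ _ (fun i => P i (c.ψ z)) h1 h2 h3 (hP _ (hmem z hz)) (hs _ (hmem z hz))
  refine ⟨fun z hz => (halg z hz).1, fun z hz => (halg z hz).2, ?_⟩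
  have hψ : ContDiffAt ℝ ∞ c.ψ z0 := c.smoothψ.contDiffAt (c.openV.mem_nhds hz0)
  have hφ : ContDiffAt ℝ ∞ c.φ (c.ψ z0) :=
    c.smoothφ.contDiffAt (c.openW.mem_nhds (c.mapsψ z0 hz0).2)
  have le2 : (1 : WithTop ℕ∞) + 1 ≤ ∞ := by
    have h : (((2 : ℕ∞)) : WithTop ℕ∞) ≤ ((⊤ : ℕ∞) : WithTop ℕ∞) := WithTop.coe_le_coe.mpr le_top
    exact (show (1 : WithTop ℕ∞) + 1 = ((2 : ℕ∞) : WithTop ℕ∞) by norm_num) ▸ h
  have le1 : (1 : WithTop ℕ∞) ≤ ∞ := by simp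
  have hu : ContDiffAt ℝ 1 (fderiv ℝ c.ψ) z0 := hψ.fderiv_right le2
  have hv : ContDiffAt ℝ 1 (fun z => fderiv ℝ c.φ (c.ψ z)) z0 :=
    (hφ.fderiv_right le2).comp z0 (hψ.of_le le1)
  obtain ⟨Lψ, t1, ht1, hL1⟩ := (hψ.of_le le1).exists_lipschitzOnWith
  obtain ⟨Lu, t2, ht2, hL2⟩ := hu.exists_lipschitzOnWith
  obtain ⟨Lv, t3, ht3, hL3⟩ := hv.exists_lipschitzOnWith
  have ht4 : c.ψ ⁻¹' U ∈ 𝓝 z0 := hψ.continuousAt.preimage_mem_nhds (hU.mem_nhds hzU)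
  have hall : c.V ∩ t1 ∩ t2 ∩ t3 ∩ c.ψ ⁻¹' U ∈ 𝓝 z0 :=
    inter_mem (inter_mem (inter_mem (inter_mem (c.openV.mem_nhds hz0) ht1) ht2) ht3) ht4
  obtain ⟨r, r0, hr⟩ := Metric.nhds_basis_closedBall.mem_iff.mp hall
  obtain ⟨b, hbdef⟩ : ∃ b : ℝ, b = ‖fderiv ℝ c.ψ z0‖ + Lu + (‖fderiv ℝ c.φ (c.ψ z0)‖ + Lv) :=
    ⟨_, rfl⟩
  obtain ⟨D, hDdef⟩ : ∃ D : ℝ, D = |C| * (Lψ : ℝ) ^ α := ⟨_, rfl⟩
  obtain ⟨B, hBdef⟩ : ∃ B : ℝ, B = ∑ i, ‖P i (c.ψ z0)‖ + D := ⟨_, rfl⟩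
  have D0 : 0 ≤ D := by rw [hDdef]; positivity
  have B0 : 0 ≤ B := by rw [hBdef]; positivity
  have b0 : 0 ≤ b := by rw [hbdef]; positivity
  have hsub : Metric.closedBall z0 (min r (1 / 2)) ⊆ c.V ∩ t1 ∩ t2 ∩ t3 ∩ c.ψ ⁻¹' U :=
    (Metric.closedBall_subset_closedBall (min_le_left _ _)).trans hr
  have hz0b : z0 ∈ Metric.closedBall z0 (min r (1 / 2)) :=
    Metric.mem_closedBall_self (le_min r0.le (by norm_num))
  have dist1 : ∀ z ∈ Metric.closedBall z0 (min r (1 / 2)),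
      ∀ z' ∈ Metric.closedBall z0 (min r (1 / 2)), ‖z - z'‖ ≤ 1 := by
    intro z hz z' hz'
    have h1 := (Metric.mem_closedBall.mp hz).trans (min_le_right _ _)
    have h2 := (Metric.mem_closedBall.mp hz').trans (min_le_right _ _)
    rw [← dist_eq_norm]
    have := dist_triangle_right z z' z0
    linarith
  -- the estimate of ψ
  have hψL : ∀ z ∈ Metric.closedBall z0 (min r (1 / 2)),
      ∀ z' ∈ Metric.closedBall z0 (min r (1 / 2)),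
      ‖c.ψ z - c.ψ z'‖ ≤ Lψ * ‖z - z'‖ := by
    intro z hz z' hz'
    have := hL1.dist_le_mul z (hsub hz).1.1.1.2 z' (hsub hz').1.1.1.2
    rwa [dist_eq_norm, dist_eq_norm] at this
  have hPL : ∀ z ∈ Metric.closedBall z0 (min r (1 / 2)),
      ∀ z' ∈ Metric.closedBall z0 (min r (1 / 2)), ∀ i,
      ‖P i (c.ψ z) - P i (c.ψ z')‖ ≤ D * ‖z - z'‖ ^ α := by
    intro z hz z' hz' i
    have h1 := hH (c.ψ z) ⟨hmem z (hsub hz).1.1.1.1, (hsub hz).2⟩ (c.ψ z')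
      ⟨hmem z' (hsub hz').1.1.1.1, (hsub hz').2⟩ i
    have h2 : C * ‖c.ψ z - c.ψ z'‖ ^ α ≤ |C| * ‖c.ψ z - c.ψ z'‖ ^ α :=
      mul_le_mul_of_nonneg_right (le_abs_self C) (Real.rpow_nonneg (norm_nonneg _) _)
    have h3 : ‖c.ψ z - c.ψ z'‖ ^ α ≤ (Lψ : ℝ) ^ α * ‖z - z'‖ ^ α := by
      rw [← Real.mul_rpow Lψ.coe_nonneg (norm_nonneg _)]
      exact Real.rpow_le_rpow (norm_nonneg _) (hψL z hz z' hz') α0.le
    calc ‖P i (c.ψ z) - P i (c.ψ z')‖ ≤ |C| * ‖c.ψ z - c.ψ z'‖ ^ α := h1.trans h2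
      _ ≤ |C| * ((Lψ : ℝ) ^ α * ‖z - z'‖ ^ α) := mul_le_mul_of_nonneg_left h3 (abs_nonneg _)
      _ = D * ‖z - z'‖ ^ α := by rw [hDdef]; ring
  have hpow1 : ∀ z ∈ Metric.closedBall z0 (min r (1 / 2)),
      ∀ z' ∈ Metric.closedBall z0 (min r (1 / 2)), ‖z - z'‖ ^ α ≤ 1 := by
    intro z hz z' hz'
    exact Real.rpow_le_one (norm_nonneg _) (dist1 z hz z' hz') α0.le
  have hpow2 : ∀ z ∈ Metric.closedBall z0 (min r (1 / 2)),
      ∀ z' ∈ Metric.closedBall z0 (min r (1 / 2)), ‖z - z'‖ ≤ ‖z - z'‖ ^ α := by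
    intro z hz z' hz'
    rcases eq_or_lt_of_le (norm_nonneg (z - z')) with h0 | h0
    · rw [← h0, Real.zero_rpow α0.ne']
    · have := Real.rpow_le_rpow_of_exponent_ge h0 (dist1 z hz z' hz') α1
      rwa [Real.rpow_one] at this
  have hPB : ∀ z ∈ Metric.closedBall z0 (min r (1 / 2)), ∀ i, ‖P i (c.ψ z)‖ ≤ B := by
    intro z hz i
    have h1 := hPL z hz z0 hz0b i
    have h2 : D * ‖z - z0‖ ^ α ≤ D := by
      have := mul_le_mul_of_nonneg_left (hpow1 z hz z0 hz0b) D0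
      rwa [mul_one] at this
    have h3 : ‖P i (c.ψ z0)‖ ≤ ∑ i, ‖P i (c.ψ z0)‖ :=
      Finset.single_le_sum (f := fun i => ‖P i (c.ψ z0)‖) (fun _ _ => norm_nonneg _)
        (Finset.mem_univ i)
    have h4 := norm_sub_norm_le (P i (c.ψ z)) (P i (c.ψ z0))
    rw [hBdef]
    linarith
  have hUL : ∀ z ∈ Metric.closedBall z0 (min r (1 / 2)),
      ∀ z' ∈ Metric.closedBall z0 (min r (1 / 2)),
      ‖fderiv ℝ c.ψ z - fderiv ℝ c.ψ z'‖ ≤ Lu * ‖z - z'‖ := by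
    intro z hz z' hz'
    have := hL2.dist_le_mul z (hsub hz).1.1.2 z' (hsub hz').1.1.2
    rwa [dist_eq_norm, dist_eq_norm] at this
  have hVL : ∀ z ∈ Metric.closedBall z0 (min r (1 / 2)),
      ∀ z' ∈ Metric.closedBall z0 (min r (1 / 2)),
      ‖fderiv ℝ c.φ (c.ψ z) - fderiv ℝ c.φ (c.ψ z')‖ ≤ Lv * ‖z - z'‖ := by
    intro z hz z' hz'
    have := hL3.dist_le_mul z (hsub hz).1.2 z' (hsub hz').1.2
    rwa [dist_eq_norm, dist_eq_norm] at this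
  have hUB : ∀ z ∈ Metric.closedBall z0 (min r (1 / 2)), ‖fderiv ℝ c.ψ z‖ ≤ b := by
    intro z hz
    have h1 := hUL z hz z0 hz0b
    have h2 : (Lu : ℝ) * ‖z - z0‖ ≤ Lu := by
      have := mul_le_mul_of_nonneg_left (dist1 z hz z0 hz0b) Lu.coe_nonneg
      rwa [mul_one] at this
    have h4 := norm_sub_norm_le (fderiv ℝ c.ψ z) (fderiv ℝ c.ψ z0)
    have h5 := norm_nonneg (fderiv ℝ c.φ (c.ψ z0))
    have h6 := Lv.coe_nonneg
    rw [hbdef]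
    linarith
  have hVB : ∀ z ∈ Metric.closedBall z0 (min r (1 / 2)), ‖fderiv ℝ c.φ (c.ψ z)‖ ≤ b := by
    intro z hz
    have h1 := hVL z hz z0 hz0b
    have h2 : (Lv : ℝ) * ‖z - z0‖ ≤ Lv := by
      have := mul_le_mul_of_nonneg_left (dist1 z hz z0 hz0b) Lv.coe_nonneg
      rwa [mul_one] at this
    have h4 := norm_sub_norm_le (fderiv ℝ c.φ (c.ψ z)) (fderiv ℝ c.φ (c.ψ z0))
    have h5 := norm_nonneg (fderiv ℝ c.ψ z0)
    have h6 := Lu.coe_nonneg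
    rw [hbdef]
    linarith
  obtain ⟨T, hT⟩ : ∃ T : ℝ, T = Lv * (B * b) + b * (D * b) + b * (B * Lu) := ⟨_, rfl⟩
  have T0 : 0 ≤ T := by rw [hT]; positivity
  refine ⟨min r (1 / 2), b + T, lt_min r0 (by norm_num), fun z hz => (hsub hz).1.1.1.1, ?_, ?_⟩
  · intro z hz z' hz' i
    have h1 := k1_norm (fderiv ℝ c.ψ z) (fderiv ℝ c.ψ z') (fderiv ℝ c.φ (c.ψ z))
      (fderiv ℝ c.φ (c.ψ z')) (P i (c.ψ z)) (P i (c.ψ z')) b0 B0 (hUB z hz) (hVB z' hz')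
      (hPB z hz i) (hPB z' hz' i) (hVL z hz z' hz') (hPL z hz z' hz' i) (hUL z hz z' hz')
      (mul_nonneg Lv.coe_nonneg (norm_nonneg _))
      (mul_nonneg D0 (Real.rpow_nonneg (norm_nonneg _) _))
    have h2 : (Lv : ℝ) * ‖z - z'‖ * (B * b) ≤ Lv * ‖z - z'‖ ^ α * (B * b) :=
      mul_le_mul_of_nonneg_right (mul_le_mul_of_nonneg_left (hpow2 z hz z' hz') Lv.coe_nonneg)
        (mul_nonneg B0 b0)
    have h3 : b * (B * (Lu * ‖z - z'‖)) ≤ b * (B * (Lu * ‖z - z'‖ ^ α)) :=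
      mul_le_mul_of_nonneg_left (mul_le_mul_of_nonneg_left
        (mul_le_mul_of_nonneg_left (hpow2 z hz z' hz') Lu.coe_nonneg) B0) b0
    have h4 : 0 ≤ b * ‖z - z'‖ ^ α := mul_nonneg b0 (Real.rpow_nonneg (norm_nonneg _) _)
    have h5 : (b + T) * ‖z - z'‖ ^ α = b * ‖z - z'‖ ^ α + (Lv * ‖z - z'‖ ^ α * (B * b) +
        b * (D * ‖z - z'‖ ^ α * b) + b * (B * (Lu * ‖z - z'‖ ^ α))) := by
      rw [hT]; ring
    change ‖(fderiv ℝ c.φ (c.ψ z)) ∘L (P i (c.ψ z)) ∘L (fderiv ℝ c.ψ z) -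
      (fderiv ℝ c.φ (c.ψ z')) ∘L (P i (c.ψ z')) ∘L (fderiv ℝ c.ψ z')‖ ≤ _
    rw [h5]
    linarith
  · intro z hz
    exact ⟨(hUB z hz).trans (le_add_of_nonneg_right T0), (hVB z hz).trans
      (le_add_of_nonneg_right T0)⟩

end Pool.Agent.Helper95.RZ
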