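import Pool.Agent.Helper56.RZ.GoalsA

/-!
# Packet RZ-AN (project RZ, MP_f32c9c_an): adapted norms
-/

set_option autoImplicit false

open Set Filter Topology MeasureTheory

open scoped ContDiff

namespace Pool.Agent.Helper95.RZ

open Pool.Agent.Helper56.RZ

section
variable {X : Type} [MetricSpace X] {K : ℕ}

lemma cont_An (C : Coc X K) : ∀ k, Continuous (C.An k)
  | 0 => C.contT
  | k + 1 => (C.contA.comp (C.f.continuous.iterate k)).mul (cont_An C k)

lemma An_shift (C : Coc X K) (k : ℕ) (x : X) : C.An k (C.f x) * C.A x = C.An (k + 1) x := by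
  induction k with
  | zero =>
    change C.T (C.f x) * C.A x = C.A x * C.T x
    rw [C.TA, C.AT]
  | succ k ih =>
    change C.A (C.f^[k] (C.f x)) * C.An k (C.f x) * C.A x = C.A (C.f^[k + 1] x) * C.An (k + 1) x
    rw [mul_assoc, ih, Function.iterate_succ_apply]

lemma symm_iter (C : Coc X K) (k : ℕ) (y : X) : (C.f.symm)^[k] (C.f^[k] y) = y :=
  Function.LeftInverse.iterate (f := C.f) (g := C.f.symm) (fun z => C.f.symm_apply_apply z) k y

lemma inv_shift (C : Coc X K) (k : ℕ) (x : X) :
    C.B (C.f x) * C.inv.An k (C.f^[k] (C.f x)) = C.inv.An (k + 1) (C.f^[k + 1] x) := by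
  change _ = C.B ((C.f.symm)^[k] (C.f^[k + 1] x)) * C.inv.An k (C.f^[k + 1] x)
  rw [Function.iterate_succ_apply, symm_iter]

/-- the terms of the adapted norm -/
noncomputable def term (C : Coc X K) (k : ℕ) (x : X) (s : End K) : ℝ :=
  ‖C.An k x * s * C.inv.An k (C.f^[k] x)‖

lemma term_nonneg (C : Coc X K) (k : ℕ) (x : X) (s : End K) : 0 ≤ term C k x s := norm_nonneg _

lemma term_shift (C : Coc X K) (k : ℕ) (x : X) (s : End K) :
    term C k (C.f x) (C.A x * s * C.B (C.f x)) = term C (k + 1) x s := by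
  unfold term
  rw [← An_shift, ← inv_shift]
  simp only [mul_assoc]

lemma term_zero (C : Coc X K) {F G : X → End K} (h : Pair C F G) (x : X) (s : End K)
    (hs : G x * s * F x = s) : term C 0 x s = ‖s‖ := by
  unfold term
  change ‖C.T x * s * C.T x‖ = _
  have h1 : C.T x * G x = G x := by rw [← h.sum, add_mul, h.FG, h.GG, zero_add]
  have h2 : F x * C.T x = F x := by rw [← h.sum, mul_add, h.FF, h.FG, add_zero]
  have h3 : C.T x * s * C.T x = s := by
    conv_lhs => rw [← hs]
    rw [show C.T x * (G x * s * F x) * C.T x = (C.T x * G x) * s * (F x * C.T x) by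
      simp only [mul_assoc], h1, h2, hs]
  rw [h3]

lemma adapt_pos [CompactSpace X] (C : Coc X K) {F G : X → End K} (h : Pair C F G) (n : ℕ)
    (hn : n ≠ 0) (l : ℝ) (l0 : 0 < l) (l1 : l < 1)
    (hc : ∀ (x : X) (s : End K), G x * s * F x = s → term C n x s ≤ l * ‖s‖) :
    ∃ (nu : X → End K → ℝ) (c l : ℝ), 1 ≤ c ∧ Adapt C F G nu c l := by
  obtain ⟨μ, hμ⟩ : ∃ μ : ℝ, μ = l ^ ((n : ℝ)⁻¹) := ⟨_, rfl⟩
  have μ0 : 0 < μ := by rw [hμ]; exact Real.rpow_pos_of_pos l0 _
  have μn : μ ^ n = l := by rw [hμ]; exact Real.rpow_inv_natCast_pow l0.le hn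
  have μ1 : μ < 1 := by
    by_contra hge
    have : 1 ≤ μ ^ n := one_le_pow₀ (not_lt.mp hge)
    rw [μn] at this
    linarith
  -- the bound
  have hcont : Continuous fun x : X => ∑ k ∈ Finset.range n,
      (μ ^ k)⁻¹ * (‖C.An k x‖ * ‖C.inv.An k (C.f^[k] x)‖) := by
    refine continuous_finsetSum _ fun k _ => continuous_const.mul ?_
    exact (cont_An C k).norm.mul ((cont_An C.inv k).comp (C.f.continuous.iterate k)).norm
  obtain ⟨b, hb⟩ := isCompact_univ.exists_bound_of_continuousOn hcont.continuousOn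
  refine ⟨fun x s => ∑ k ∈ Finset.range n, (μ ^ k)⁻¹ * term C k x s, max 1 b, μ, le_max_left _ _,
    ?_⟩
  have hlow : ∀ (x : X) (s : End K), G x * s * F x = s →
      ‖s‖ ≤ ∑ k ∈ Finset.range n, (μ ^ k)⁻¹ * term C k x s := by
    intro x s hs
    have h0 : (0 : ℕ) ∈ Finset.range n := Finset.mem_range.mpr (Nat.pos_of_ne_zero hn)
    have := Finset.single_le_sum (f := fun k => (μ ^ k)⁻¹ * term C k x s)
      (fun k _ => mul_nonneg (inv_nonneg.mpr (pow_nonneg μ0.le k)) (term_nonneg C k x s)) h0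
    simpa [term_zero C h x s hs] using this
  constructor
  · refine continuous_finsetSum _ fun k _ => continuous_const.mul ?_
    exact ((((cont_An C k).comp continuous_fst).mul continuous_snd).mul
      ((cont_An C.inv k).comp ((C.f.continuous.iterate k).comp continuous_fst))).norm
  · intro x s t
    rw [← Finset.sum_add_distrib]
    refine Finset.sum_le_sum fun k _ => ?_
    rw [← mul_add]
    refine mul_le_mul_of_nonneg_left ?_ (inv_nonneg.mpr (pow_nonneg μ0.le k))
    unfold term
    rw [mul_add, add_mul]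
    exact norm_add_le _ _
  · intro x a s
    rw [Finset.mul_sum]
    refine Finset.sum_congr rfl fun k _ => ?_
    have e : C.An k x * (a • s) * C.inv.An k (C.f^[k] x) =
        a • (C.An k x * s * C.inv.An k (C.f^[k] x)) := by
      refine ContinuousLinearMap.ext fun v => ?_
      change C.An k x (a • (s (C.inv.An k (C.f^[k] x) v))) = _
      rw [map_smul]
      rfl
    unfold term
    rw [e, norm_smul, Real.norm_eq_abs]
    ring
  · exact hlow
  · intro x s
    have h1 : ∑ k ∈ Finset.range n, (μ ^ k)⁻¹ * term C k x s ≤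
        (∑ k ∈ Finset.range n, (μ ^ k)⁻¹ * (‖C.An k x‖ * ‖C.inv.An k (C.f^[k] x)‖)) * ‖s‖ := by
      rw [Finset.sum_mul]
      refine Finset.sum_le_sum fun k _ => ?_
      rw [mul_assoc]
      refine mul_le_mul_of_nonneg_left ?_ (inv_nonneg.mpr (pow_nonneg μ0.le k))
      have h2 := norm_mul_le (C.An k x * s) (C.inv.An k (C.f^[k] x))
      have h3 := mul_le_mul_of_nonneg_right (norm_mul_le (C.An k x) s)
        (norm_nonneg (C.inv.An k (C.f^[k] x)))
      calc term C k x s ≤ _ := h2
        _ ≤ _ := h3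
        _ = _ := by ring
    have h4 := (le_abs_self _).trans (hb x (mem_univ x))
    exact h1.trans (mul_le_mul_of_nonneg_right (h4.trans (le_max_right _ _)) (norm_nonneg s))
  · exact μ0
  · exact μ1
  · intro x s hs
    simp only [term_shift]
    have e1 : ∑ k ∈ Finset.range n, (μ ^ k)⁻¹ * term C (k + 1) x s =
        μ * ∑ k ∈ Finset.range n, (μ ^ (k + 1))⁻¹ * term C (k + 1) x s := by
      rw [Finset.mul_sum]
      refine Finset.sum_congr rfl fun k _ => ?_
      rw [pow_succ]
      field_simp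
    have e2 : ∑ k ∈ Finset.range n, (μ ^ (k + 1))⁻¹ * term C (k + 1) x s + term C 0 x s =
        ∑ k ∈ Finset.range n, (μ ^ k)⁻¹ * term C k x s + (μ ^ n)⁻¹ * term C n x s := by
      rw [← Finset.sum_range_succ (fun k => (μ ^ k)⁻¹ * term C k x s) n,
        Finset.sum_range_succ' (fun k => (μ ^ k)⁻¹ * term C k x s) n]
      simp
    have e3 : (μ ^ n)⁻¹ * term C n x s ≤ term C 0 x s := by
      rw [term_zero C h x s hs, μn, inv_mul_le_iff₀ l0]
      exact hc x s hs
    rw [e1]
    refine mul_le_mul_of_nonneg_left ?_ μ0.le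
    linarith

end

theorem an : StmtAN := by
  intro X _ _ K C F G h hC
  obtain ⟨n, l, l0, l1, hc⟩ := hC
  rcases Nat.eq_zero_or_pos n with hn | hn
  · subst hn
    refine adapt_pos C h 1 one_ne_zero l l0 l1 fun x s hs => ?_
    have h1 : ‖s‖ ≤ l * ‖s‖ := by
      have := hc x s hs
      rw [← term_zero C h x s hs] at this ⊢
      exact this
    have h2 : ‖s‖ = 0 := by nlinarith [norm_nonneg s]
    have h3 : s = 0 := norm_eq_zero.mp h2
    rw [h3]
    simp [term]
  · exact adapt_pos C h n hn.ne' l l0 l1 hc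

end Pool.Agent.Helper95.RZ
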